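import Pool.Agent.Q41.ZP.Mon
import Pool.Agent.W466.EK

/-!
Counting lemmas for families of scaling vectors for products of elliptic curves and tori (helper
file for Zilber-Pink for semiabelian varieties, scalings by `S`-units and by points of tori).
-/

set_option autoImplicit false

namespace Pool.Agent.Q116.ZE

open Finset Pool.Agent.W466.EP Pool.Agent.Q41.ZP

/-- a residue class in an interval -/
theorem card_modEq (H m r : ℕ) :
    ((Icc 1 H).filter fun v => v ≡ r [MOD m]).card ≤ H / m + 1 := by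
  rw [← card_range (H / m + 1)]
  refine card_le_card_of_injOn (fun v => v / m) ?_ ?_
  · intro v hv
    rw [mem_coe, mem_filter, mem_Icc] at hv
    rw [mem_coe, mem_range]
    exact Nat.lt_succ_of_le (Nat.div_le_div_right hv.1.2)
  · intro v hv w hw h
    rw [mem_coe, mem_filter, mem_Icc] at hv hw
    have h1 : v % m = w % m := hv.2.trans hw.2.symm
    have h2 : v / m = w / m := h
    rw [← Nat.div_add_mod v m, ← Nat.div_add_mod w m, h1, h2]

theorem card_dvd (H m : ℕ) : ((Icc 1 H).filter fun v => m ∣ v).card ≤ H / m := by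
  have h1 : (Icc 1 H) = Ioc 0 H := rfl
  rw [h1, Nat.Ioc_filter_dvd_card_eq_div]

theorem card_lt (H m : ℕ) : ((Icc 1 H).filter fun v => v < m).card ≤ m := by
  refine (card_le_card (t := range m) fun v hv => ?_).trans (by rw [card_range])
  rw [mem_filter] at hv
  exact mem_range.2 hv.2

open Classical in
/-- Almost all matrices of exponents are good. -/
theorem count_good {K α : Type} [Fintype K] [DecidableEq K] [Fintype α] [DecidableEq α] (q : ℕ)
    (b : ℕ) (ro : Fin ((q - 1) * 2 ^ q + 1) → K) (hro : Function.Injective ro)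
    (H : ℕ) :
    ((Fintype.piFinset fun _ : K × (α ⊕ Fin q) => Icc 1 H).filter fun e =>
      ¬ GoodExp q b (fun l i => e (ro l, Sum.inl i)) (fun l j => e (ro l, Sum.inr j))).card ≤
      (((q - 1) * 2 ^ q + 1) * Fintype.card α * (b + H / b) +
        ((q - 1) * 2 ^ q + 1) * Fintype.card α ^ 2 * (H / (2 * b) + 1) +
        q * ((q - 1) * 2 ^ q + 1) ^ q) *
      H ^ (Fintype.card K * (Fintype.card α + q) - 1) := by
  have hcard : Fintype.card (K × (α ⊕ Fin q)) = Fintype.card K * (Fintype.card α + q) := by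
    simp
  set box : Finset (K × (α ⊕ Fin q) → ℕ) :=
    Fintype.piFinset fun _ : K × (α ⊕ Fin q) => Icc 1 H with hbox
  let S0 : Fin ((q - 1) * 2 ^ q + 1) × α → Finset (K × (α ⊕ Fin q) → ℕ) := fun z =>
    box.filter fun e => e (ro z.1, Sum.inl z.2) < b ∨ b ∣ e (ro z.1, Sum.inl z.2)
  let S1 : Fin ((q - 1) * 2 ^ q + 1) × (α × α) → Finset (K × (α ⊕ Fin q) → ℕ) := fun z =>
    box.filter fun e => z.2.1 ≠ z.2.2 ∧
      e (ro z.1, Sum.inl z.2.1) ≡ e (ro z.1, Sum.inl z.2.2) [MOD 2 * b]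
  let S2 : (Fin q → Fin ((q - 1) * 2 ^ q + 1)) → Finset (K × (α ⊕ Fin q) → ℕ) := fun r =>
    box.filter fun e => Function.Injective r ∧
      (Matrix.of fun i j : Fin q => (e (ro (r i), Sum.inr j) : ℤ)).det = 0
  have hsub : (box.filter fun e =>
      ¬ GoodExp q b (fun l i => e (ro l, Sum.inl i)) (fun l j => e (ro l, Sum.inr j))) ⊆
      univ.biUnion S0 ∪ univ.biUnion S1 ∪ univ.biUnion S2 := by
    intro e he
    rw [mem_filter] at he
    obtain ⟨he1, he2⟩ := he
    rw [mem_union, mem_union]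
    by_contra hcon
    rw [not_or, not_or] at hcon
    apply he2
    refine ⟨fun l i => ?_, fun l i j hij h => ?_, fun I hI β hβ => ?_⟩
    · by_contra h
      apply hcon.1.1
      rw [mem_biUnion]
      refine ⟨(l, i), mem_univ _, mem_filter.2 ⟨he1, ?_⟩⟩
      show e (ro l, Sum.inl i) < b ∨ b ∣ e (ro l, Sum.inl i)
      by_contra h'
      rw [not_or] at h'
      exact h ⟨not_lt.1 h'.1, h'.2⟩
    · apply hcon.1.2
      rw [mem_biUnion]
      exact ⟨(l, (i, j)), mem_univ _, mem_filter.2 ⟨he1, hij, h⟩⟩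
    · by_contra hβ0
      apply hcon.2
      rw [mem_biUnion]
      let r := I.orderEmbOfFin hI
      refine ⟨r, mem_univ _, mem_filter.2 ⟨he1, r.injective, ?_⟩⟩
      rw [← Matrix.exists_mulVec_eq_zero_iff]
      refine ⟨β, hβ0, ?_⟩
      funext i
      have h1 := hβ (r i) (Finset.orderEmbOfFin_mem I hI i)
      simp only [Matrix.mulVec, dotProduct, Matrix.of_apply, Pi.zero_apply]
      rw [← h1]
      exact sum_congr rfl fun j _ => mul_comm _ _
  have hS0 : ∀ z, (S0 z).card ≤ (b + H / b) * H ^ (Fintype.card K * (Fintype.card α + q) - 1) := by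
    rintro ⟨l, i⟩
    rw [← hcard]
    refine card_fiber H (b + H / b) (ro l, Sum.inl i)
      (fun e => e (ro l, Sum.inl i) < b ∨ b ∣ e (ro l, Sum.inl i)) fun e he => ?_
    refine (card_le_card (t := ((Icc 1 H).filter fun v => v < b) ∪
      (Icc 1 H).filter fun v => b ∣ v) fun v hv => ?_).trans ((card_union_le _ _).trans
        (Nat.add_le_add (card_lt H b) (card_dvd H b)))
    rw [mem_filter, Function.update_self] at hv
    rw [mem_union, mem_filter, mem_filter]
    exact hv.2.imp (fun h => ⟨hv.1, h⟩) fun h => ⟨hv.1, h⟩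
  have hS1 : ∀ z, (S1 z).card ≤
      (H / (2 * b) + 1) * H ^ (Fintype.card K * (Fintype.card α + q) - 1) := by
    rintro ⟨l, ⟨i, j⟩⟩
    by_cases hij : i = j
    · have h0 : S1 (l, (i, j)) = ∅ := by
        rw [filter_eq_empty_iff]
        rintro e - ⟨h1, -⟩
        exact h1 hij
      rw [h0]
      exact Nat.zero_le _
    · rw [← hcard]
      refine (card_le_card fun e he => ?_).trans (card_fiber H (H / (2 * b) + 1) (ro l, Sum.inl i)
        (fun e => e (ro l, Sum.inl i) ≡ e (ro l, Sum.inl j) [MOD 2 * b]) fun e he => ?_)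
      · rw [mem_filter] at he ⊢
        exact ⟨he.1, he.2.2⟩
      · refine (card_le_card fun v hv => ?_).trans (card_modEq H (2 * b) (e (ro l, Sum.inl j)))
        rw [mem_filter, Function.update_self, Function.update_of_ne] at hv
        · exact mem_filter.2 hv
        · intro h
          exact hij (Sum.inl_injective (Prod.mk.inj h).2).symm
  have hS2 : ∀ r, (S2 r).card ≤ q * H ^ (Fintype.card K * (Fintype.card α + q) - 1) := by
    intro r
    by_cases hr : Function.Injective r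
    · rw [← hcard]
      refine le_trans (card_le_card (fun e he => ?_)) (card_det (K := K) (I := α ⊕ Fin q)
        H q (fun i => ro (r i)) Sum.inr (hro.comp hr) Sum.inr_injective)
      rw [mem_filter] at he ⊢
      exact ⟨Fintype.mem_piFinset.2 (Fintype.mem_piFinset.1 he.1), he.2.2⟩
    · have h0 : S2 r = ∅ := by
        rw [filter_eq_empty_iff]
        rintro e - ⟨h1, -⟩
        exact hr h1
      rw [h0]
      exact Nat.zero_le _
  refine (card_le_card hsub).trans ((card_union_le _ _).trans ?_)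
  rw [add_mul, add_mul]
  refine Nat.add_le_add ((card_union_le _ _).trans (Nat.add_le_add ?_ ?_)) ?_
  · refine (card_biUnion_le.trans (sum_le_sum fun z _ => hS0 z)).trans (le_of_eq ?_)
    rw [sum_const, card_univ, Fintype.card_prod, Fintype.card_fin, smul_eq_mul]
    ring
  · refine (card_biUnion_le.trans (sum_le_sum fun z _ => hS1 z)).trans (le_of_eq ?_)
    rw [sum_const, card_univ, Fintype.card_prod, Fintype.card_prod, Fintype.card_fin, smul_eq_mul]
    ring
  · refine (card_biUnion_le.trans (sum_le_sum fun r _ => hS2 r)).trans (le_of_eq ?_)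
    rw [sum_const, card_univ, Fintype.card_fun, Fintype.card_fin, Fintype.card_fin, smul_eq_mul]
    ring

/-- scalings are spread out, if the factors have large primes of their own which divide them exactly
once -/
theorem spreadE_of_primes {α : Type} {q D β : ℕ}
    {e : Fin ((q - 1) * 2 ^ q + 1) → α → ℕ} {a : Fin ((q - 1) * 2 ^ q + 1) → Fin q → ℕ}
    (hea : GoodExp q β e a) {u : Fin ((q - 1) * 2 ^ q + 1) → ℕ} (hu : ∀ l, u l ≠ 0)
    {b : α → ℕ} (hb : ∀ i, b i ≠ 0) {b' : Fin q → ℕ} (hb' : ∀ j, b' j ≠ 0)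
    (p : Fin ((q - 1) * 2 ^ q + 1) → ℕ) (hp : ∀ l, (p l).Prime ∧ D < p l) (h0 : ∀ l, p l ∣ u l)
    (h0' : ∀ l, ¬ p l ^ 2 ∣ u l) (h1 : ∀ l l', l ≠ l' → ¬ p l ∣ u l') (h2 : ∀ l i, ¬ p l ∣ b i)
    (h3 : ∀ l j, ¬ p l ∣ b' j) :
    SpreadE q D β (fun i => b i * ∏ l, u l ^ e l i) (fun j => b' j * ∏ l, u l ^ a l j) := by
  have hu1 : ∀ l, (u l).factorization (p l) = 1 := by
    intro l
    have h4 : 1 ≤ (u l).factorization (p l) :=
      ((hp l).1.dvd_iff_one_le_factorization (hu l)).1 (h0 l)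
    have h5 : ¬ 2 ≤ (u l).factorization (p l) := fun h =>
      h0' l (((hp l).1.pow_dvd_iff_le_factorization (hu l)).2 h)
    omega
  have hf1 : ∀ l i, (b i * ∏ l, u l ^ e l i).factorization (p l) = e l i := fun l i => by
    rw [Pool.Agent.Q41.ZP.fac_prod hu hb e h1 h2 l i, hu1, mul_one]
  have hf2 : ∀ l j, (b' j * ∏ l, u l ^ a l j).factorization (p l) = a l j := fun l j => by
    rw [Pool.Agent.Q41.ZP.fac_prod hu hb' a h1 h3 l j, hu1, mul_one]
  refine ⟨fun j => Nat.mul_ne_zero (hb' j)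
    (Finset.prod_ne_zero_iff.2 fun l _ => pow_ne_zero _ (hu l)), p, hp, ?_, ?_, ?_⟩
  · intro l i
    simp only [hf1]
    exact hea.1 l i
  · intro l i j hij
    simp only [hf1]
    exact hea.2.1 l i j hij
  · intro I hI γ hγ
    refine hea.2.2 I hI γ fun l hl => ?_
    have h4 := hγ l hl
    simp only [hf2] at h4
    exact h4

open Classical in
/-- few numbers are divisible by the square of a large number -/
theorem card_sqdvd (H : ℕ) {y : ℕ} (hy : 1 ≤ y) :
    (((Icc 1 H).filter fun v : ℕ => ∃ p, y < p ∧ p ^ 2 ∣ v).card : ℝ) ≤ (H : ℝ) / y := by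
  have hsub : ((Icc 1 H).filter fun v : ℕ => ∃ p, y < p ∧ p ^ 2 ∣ v) ⊆
      (Ioc y H).biUnion fun p => (Ioc 0 H).filter fun x => p ^ 2 ∣ x := by
    intro v hv
    rw [mem_filter, mem_Icc] at hv
    obtain ⟨⟨h1, h2⟩, p, h5, h6⟩ := hv
    rw [mem_biUnion]
    have h7 : p ≤ v := by
      have h8 := Nat.le_of_dvd h1 h6
      nlinarith
    refine ⟨p, mem_Ioc.2 ⟨h5, h7.trans h2⟩, ?_⟩
    rw [mem_filter, mem_Ioc]
    exact ⟨⟨h1, h2⟩, h6⟩
  have h1 : (((Icc 1 H).filter fun v : ℕ => ∃ p, y < p ∧ p ^ 2 ∣ v).card : ℝ) ≤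
      ∑ p ∈ Ioc y H, ((H : ℝ) * ((p : ℝ) ^ 2)⁻¹) := by
    refine (Nat.cast_le.2 ((card_le_card hsub).trans card_biUnion_le)).trans ?_
    rw [Nat.cast_sum]
    refine sum_le_sum fun p hp => ?_
    rw [Nat.Ioc_filter_dvd_card_eq_div]
    have h2 : ((H / p ^ 2 : ℕ) : ℝ) ≤ (H : ℝ) / ((p ^ 2 : ℕ) : ℝ) := Nat.cast_div_le
    rw [← div_eq_mul_inv]
    push_cast at h2
    exact h2
  refine h1.trans ?_
  rw [← mul_sum, div_eq_mul_inv]
  gcongr
  rcases Nat.lt_or_ge H y with h | h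
  · rw [Ioc_eq_empty (by omega), sum_empty]
    positivity
  · refine (sum_Ioc_inv_sq_le_sub (by omega) h).trans ?_
    have : (0 : ℝ) ≤ (H : ℝ)⁻¹ := by positivity
    linarith

open Classical in
/-- Almost all vectors have components with large prime divisors of their own which divide them
exactly once. -/
theorem count_u' (L : ℕ) {y : ℕ} (hy : 1 ≤ y) (H : ℕ) :
    (((Fintype.piFinset fun _ : Fin L => Icc 1 H).filter fun u =>
      ¬ ∃ p : Fin L → ℕ, (∀ l, (p l).Prime ∧ y < p l ∧ p l ∣ u l ∧ ¬ p l ^ 2 ∣ u l) ∧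
        ∀ l l', l ≠ l' → ¬ p l ∣ u l').card : ℝ) ≤
      L * (H : ℝ) ^ (L - 1) * (Nat.log 2 H + 1 : ℕ) ^ (y + 1) +
        ((L : ℝ) ^ 2 + L) * (H : ℝ) ^ L / y := by
  set box : Finset (Fin L → ℕ) := Fintype.piFinset fun _ : Fin L => Icc 1 H with hbox
  let T : Fin L → Finset (Fin L → ℕ) := fun l => box.filter fun u => ∃ p, y < p ∧ p ^ 2 ∣ u l
  have hsub : (box.filter fun u => ¬ ∃ p : Fin L → ℕ,
      (∀ l, (p l).Prime ∧ y < p l ∧ p l ∣ u l ∧ ¬ p l ^ 2 ∣ u l) ∧
        ∀ l l', l ≠ l' → ¬ p l ∣ u l') ⊆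
      (box.filter fun u => ¬ ∃ p : Fin L → ℕ, (∀ l, (p l).Prime ∧ y < p l ∧ p l ∣ u l) ∧
        ∀ l l', l ≠ l' → ¬ p l ∣ u l') ∪ univ.biUnion T := by
    intro u hu
    rw [mem_filter] at hu
    obtain ⟨hu1, hu2⟩ := hu
    rw [mem_union]
    by_contra hcon
    rw [not_or] at hcon
    obtain ⟨hc1, hc2⟩ := hcon
    apply hc1
    refine mem_filter.2 ⟨hu1, ?_⟩
    rintro ⟨p, hp, hpp⟩
    apply hu2
    refine ⟨p, fun l => ⟨(hp l).1, (hp l).2.1, (hp l).2.2, fun h => ?_⟩, hpp⟩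
    apply hc2
    rw [mem_biUnion]
    exact ⟨l, mem_univ _, mem_filter.2 ⟨hu1, p l, (hp l).2.1, h⟩⟩
  have hT : ∀ l, ((T l).card : ℝ) ≤ (H : ℝ) ^ L / y := by
    intro l
    have h1 := card_fiber (κ := Fin L) H
      ((Icc 1 H).filter fun v : ℕ => ∃ p, y < p ∧ p ^ 2 ∣ v).card l
      (fun u => ∃ p, y < p ∧ p ^ 2 ∣ u l) (fun e _ => by
        refine card_le_card fun v hv => ?_
        rw [mem_filter, Function.update_self] at hv
        exact mem_filter.2 hv)
    rw [Fintype.card_fin] at h1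
    have hL1 : 1 ≤ L := by
      have := l.2
      omega
    calc ((T l).card : ℝ) ≤
          ((((Icc 1 H).filter fun v : ℕ => ∃ p, y < p ∧ p ^ 2 ∣ v).card * H ^ (L - 1) : ℕ) : ℝ) := by
          exact_mod_cast h1
      _ = (((Icc 1 H).filter fun v : ℕ => ∃ p, y < p ∧ p ^ 2 ∣ v).card : ℝ) *
          (H : ℝ) ^ (L - 1) := by
          push_cast
          ring
      _ ≤ (H : ℝ) / y * (H : ℝ) ^ (L - 1) := by
          gcongr
          exact card_sqdvd H hy
      _ = (H : ℝ) ^ L / y := by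
          rw [div_mul_eq_mul_div, ← pow_succ']
          congr 2
          omega
  have h3 : ((box.filter fun u => ¬ ∃ p : Fin L → ℕ,
      (∀ l, (p l).Prime ∧ y < p l ∧ p l ∣ u l ∧ ¬ p l ^ 2 ∣ u l) ∧
        ∀ l l', l ≠ l' → ¬ p l ∣ u l').card : ℝ) ≤
      ((box.filter fun u => ¬ ∃ p : Fin L → ℕ, (∀ l, (p l).Prime ∧ y < p l ∧ p l ∣ u l) ∧
        ∀ l l', l ≠ l' → ¬ p l ∣ u l').card : ℝ) + ((∑ l, (T l).card : ℕ) : ℝ) := by
    have h4 := (card_le_card hsub).trans ((card_union_le _ _).trans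
      (Nat.add_le_add le_rfl card_biUnion_le))
    exact_mod_cast h4
  have h5 : ((∑ l, (T l).card : ℕ) : ℝ) ≤ (L : ℝ) * ((H : ℝ) ^ L / y) := by
    rw [Nat.cast_sum]
    refine (sum_le_sum fun l _ => hT l).trans (le_of_eq ?_)
    rw [sum_const, card_univ, Fintype.card_fin, nsmul_eq_mul]
  refine h3.trans ((add_le_add (count_u L hy H) h5).trans (le_of_eq ?_))
  ring

/-- The bound of `count_u'` is `o(H^L)`. -/
theorem small_bound' (L Y : ℕ) {ε : ℝ} (hε : 0 < ε) : ∃ y : ℕ, Y ≤ y ∧ ∃ H₀ : ℕ, ∀ H : ℕ, H₀ ≤ H →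
    L * (H : ℝ) ^ (L - 1) * (Nat.log 2 H + 1 : ℕ) ^ (y + 1) +
      ((L : ℝ) ^ 2 + L) * (H : ℝ) ^ L / y ≤ ε * (H : ℝ) ^ L := by
  obtain ⟨y₀, hy₀⟩ := exists_nat_ge (2 * (L : ℝ) / ε)
  obtain ⟨y, hy, H₀, h⟩ := small_bound L (Y + y₀ + 1) (half_pos hε)
  refine ⟨y, by omega, H₀, fun H hH => ?_⟩
  have h1 := h H hH
  have hy1 : (1 : ℝ) ≤ y := by exact_mod_cast (show 1 ≤ y by omega)
  have hy2 : 2 * (L : ℝ) / ε ≤ y := hy₀.trans (by exact_mod_cast (show y₀ ≤ y by omega))
  have h2 : (L : ℝ) * (H : ℝ) ^ L / y ≤ ε / 2 * (H : ℝ) ^ L := by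
    rw [div_le_iff₀ (by linarith)]
    rw [div_le_iff₀ hε] at hy2
    have h3 : (0 : ℝ) ≤ (H : ℝ) ^ L := by positivity
    nlinarith
  rw [add_mul ((L : ℝ) ^ 2), add_div]
  linarith

end Pool.Agent.Q116.ZE
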