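import Pool.Agent.Q116.ZE.Pow
import Pool.Agent.Q116.ZE.Count
import Pool.Agent.W282.LF.Top

/-!
Large prime divisors, with exponents not divisible by `β`, of the values of coprime polynomials; spread
out scalings for the Legendre family (helper file for Zilber-Pink, families of scalings).
-/

set_option autoImplicit false

namespace Pool.Agent.Q116.ZE

open Finset Polynomial Pool.Agent.W466.EP Pool.Agent.W282.LF

/-- The values at `t` of the polynomials are not zero, and every `f l t` has a large prime divisor of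
its own with an exponent which is not divisible by `β`. -/
def GoodAt {ι : Type} {L : ℕ} (D β : ℕ) (f : Fin L → ℤ[X]) (g : ι → ℤ[X]) (t : ℤ) : Prop :=
  (∀ l, (f l).eval t ≠ 0) ∧ (∀ i, (g i).eval t ≠ 0) ∧ ∃ p : Fin L → ℕ, ∀ l,
    ((p l).Prime ∧ D < p l ∧ ¬ β ∣ ((f l).eval t).natAbs.factorization (p l)) ∧
    (∀ l', l ≠ l' → ¬ p l ∣ ((f l').eval t).natAbs) ∧ ∀ i, ¬ p l ∣ ((g i).eval t).natAbs

open Classical in
theorem poly_exceptions {ι : Type} [Fintype ι] {L : ℕ} (f : Fin L → ℤ[X]) (k : ℕ)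
    (hf : ∀ l, 1 ≤ (f l).natDegree ∧ (f l).natDegree ≤ k)
    (hcop : ∀ l l', l ≠ l' →
      IsCoprime ((f l).map (Int.castRingHom ℚ)) ((f l').map (Int.castRingHom ℚ)))
    (g : ι → ℤ[X]) (hg : ∀ i, g i ≠ 0)
    (hfg : ∀ l i, IsCoprime ((f l).map (Int.castRingHom ℚ)) ((g i).map (Int.castRingHom ℚ)))
    (D : ℕ) :
    ∃ (C : ℝ) (E : ℕ), ∀ β : ℕ, 1 ≤ β → ∀ H : ℕ, 1 ≤ H →
      (Set.ncard {t : ℤ | |t| ≤ H ∧ ¬ GoodAt D β f g t} : ℝ) ≤
        C * (H : ℝ) ^ ((k : ℝ) / β) * (1 + Real.log H) ^ E := by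
  choose! ρ hρ0 hρ using fun l l' (h : l ≠ l') => Pool.Agent.Q41.ZP.bezout (hcop l l' h)
  choose ρ₁ hρ₁0 hρ₁ using fun l i => Pool.Agent.Q41.ZP.bezout (hfg l i)
  set E : ℕ := D + (∑ l, ∑ l', (ρ l l').natAbs) + ∑ l, ∑ i, (ρ₁ l i).natAbs with hE
  choose C hC0 hC using fun l => card_values (f l) (hf l).1 (hf l).2 E
  refine ⟨∑ l, C l + ∑ i, ((g i).natDegree : ℝ), E + 1, fun β hβ H hH => ?_⟩
  set box : Finset ℤ := Finset.Icc (-(H : ℤ)) H with hbox
  let T : Fin L → Finset ℤ := fun l => box.filter fun t =>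
    (f l).eval t = 0 ∨ NearPow β E ((f l).eval t).natAbs
  have hsub : {t : ℤ | |t| ≤ H ∧ ¬ GoodAt D β f g t} ⊆
      (Finset.univ.biUnion T ∪ Finset.univ.biUnion fun i => (g i).roots.toFinset : Finset ℤ) := by
    rintro t ⟨htH, ht⟩
    rw [Finset.mem_coe, Finset.mem_union]
    by_contra hcon
    rw [not_or] at hcon
    obtain ⟨h1, h2⟩ := hcon
    simp only [Finset.mem_biUnion, Finset.mem_univ, true_and, not_exists, Multiset.mem_toFinset]
      at h1 h2
    have h1' : ∀ l, (f l).eval t ≠ 0 ∧ ¬ NearPow β E ((f l).eval t).natAbs := by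
      intro l
      rw [← not_or]
      intro h
      exact h1 l (Finset.mem_filter.2 ⟨Finset.mem_Icc.2 (abs_le.1 htH), h⟩)
    have h2' : ∀ i, (g i).eval t ≠ 0 := fun i h => h2 i ((Polynomial.mem_roots (hg i)).2 h)
    apply ht
    have h4 : ∀ l, ∃ p : ℕ, p.Prime ∧ E < p ∧ ¬ β ∣ (((f l).eval t).natAbs).factorization p := by
      intro l
      have h5 := (h1' l).2
      unfold NearPow at h5
      push Not at h5
      exact h5
    choose p hp hpE hpβ using h4
    have hpd : ∀ l, p l ∣ ((f l).eval t).natAbs := by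
      intro l
      by_contra h
      exact hpβ l (by rw [Nat.factorization_eq_zero_of_not_dvd h]; exact dvd_zero β)
    refine ⟨fun l => (h1' l).1, h2', p, fun l => ⟨⟨hp l, by have := hpE l; omega, hpβ l⟩, ?_, ?_⟩⟩
    · intro l' hll h
      have h5 := hρ l l' hll t (p l) (Int.natCast_dvd.2 (hpd l)) (Int.natCast_dvd.2 h)
      have h6 := Nat.le_of_dvd (Int.natAbs_pos.2 (hρ0 l l' hll)) (Int.natCast_dvd.1 h5)
      have h7 : (ρ l l').natAbs ≤ ∑ l, ∑ l', (ρ l l').natAbs :=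
        (Finset.single_le_sum (f := fun l' => (ρ l l').natAbs) (fun _ _ => Nat.zero_le _)
          (Finset.mem_univ l')).trans
          (Finset.single_le_sum (f := fun l => ∑ l', (ρ l l').natAbs) (fun _ _ => Nat.zero_le _)
            (Finset.mem_univ l))
      have h8 := hpE l
      omega
    · intro i h
      have h5 := hρ₁ l i t (p l) (Int.natCast_dvd.2 (hpd l)) (Int.natCast_dvd.2 h)
      have h6 := Nat.le_of_dvd (Int.natAbs_pos.2 (hρ₁0 l i)) (Int.natCast_dvd.1 h5)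
      have h7 : (ρ₁ l i).natAbs ≤ ∑ l, ∑ i, (ρ₁ l i).natAbs :=
        (Finset.single_le_sum (f := fun i => (ρ₁ l i).natAbs) (fun _ _ => Nat.zero_le _)
          (Finset.mem_univ i)).trans
          (Finset.single_le_sum (f := fun l => ∑ i, (ρ₁ l i).natAbs) (fun _ _ => Nat.zero_le _)
            (Finset.mem_univ l))
      have h8 := hpE l
      omega
  have hHr : (1 : ℝ) ≤ H := by exact_mod_cast hH
  set W : ℝ := (H : ℝ) ^ ((k : ℝ) / β) * (1 + Real.log H) ^ (E + 1) with hW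
  have hW1 : 1 ≤ W := by
    have h5 : (1 : ℝ) ≤ (H : ℝ) ^ ((k : ℝ) / β) := Real.one_le_rpow hHr (by positivity)
    have h6 : (1 : ℝ) ≤ (1 + Real.log H) ^ (E + 1) :=
      one_le_pow₀ (by linarith [Real.log_nonneg hHr])
    nlinarith
  have hroots : ∀ g : Polynomial ℤ, ((g.roots.toFinset.card : ℕ) : ℝ) ≤ g.natDegree * W := by
    intro g
    have h5 : (g.roots.toFinset.card : ℝ) ≤ g.natDegree := by
      exact_mod_cast (Multiset.toFinset_card_le g.roots).trans (Polynomial.card_roots' g)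
    have h6 : (0 : ℝ) ≤ g.natDegree := Nat.cast_nonneg _
    nlinarith
  have h7 : (Set.ncard {t : ℤ | |t| ≤ H ∧ ¬ GoodAt D β f g t} : ℝ) ≤
      ((∑ l, (T l).card + ∑ i, ((g i).roots.toFinset).card : ℕ) : ℝ) := by
    refine Nat.cast_le.2 ((Set.ncard_le_ncard hsub (Finset.finite_toSet _)).trans ?_)
    rw [Set.ncard_coe_finset]
    exact (Finset.card_union_le _ _).trans
      (Nat.add_le_add Finset.card_biUnion_le Finset.card_biUnion_le)
  refine h7.trans ?_
  push_cast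
  calc ∑ l, ((T l).card : ℝ) + ∑ i, (((g i).roots.toFinset).card : ℝ)
      ≤ ∑ l, C l * W + ∑ i, ((g i).natDegree : ℝ) * W := by
        refine add_le_add (Finset.sum_le_sum fun l _ => ?_)
          (Finset.sum_le_sum fun i _ => hroots _)
        have h8 := hC l β hβ H hH
        rw [mul_assoc] at h8
        exact h8
    _ = _ := by
        rw [← Finset.sum_mul, ← Finset.sum_mul, ← add_mul, hW, mul_assoc]

/-- scalings for the Legendre family are spread out, if the factors have large primes of their own with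
exponents prime to `β` -/
theorem spreadL_of_exps {n q D β : ℕ} 
    {e : Fin ((q - 1) * 2 ^ q + 1) → Option (Fin n) → ℕ}
    {a : Fin ((q - 1) * 2 ^ q + 1) → Fin q → ℕ} (hea : GoodExpL n q β e a)
    {u : Fin ((q - 1) * 2 ^ q + 1) → ℕ} (hu : ∀ l, u l ≠ 0)
    {b : Option (Fin n) → ℕ} (hb : ∀ i, b i ≠ 0) {b' : Fin q → ℕ} (hb' : ∀ j, b' j ≠ 0)
    (p : Fin ((q - 1) * 2 ^ q + 1) → ℕ) (hp : ∀ l, (p l).Prime ∧ D < p l)
    (h0 : ∀ l, p l ∣ u l) (h0' : ∀ l, Nat.Coprime β ((u l).factorization (p l)))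
    (h1 : ∀ l l', l ≠ l' → ¬ p l ∣ u l') (h2 : ∀ l i, ¬ p l ∣ b i)
    (h3 : ∀ l j, ¬ p l ∣ b' j) :
    SpreadL n q D β (fun i => b i * ∏ l, u l ^ e l i) (fun j => b' j * ∏ l, u l ^ a l j) := by
  have hw : ∀ l, 1 ≤ (u l).factorization (p l) := fun l =>
    ((hp l).1.dvd_iff_one_le_factorization (hu l)).1 (h0 l)
  have hf1 : ∀ l i, (b i * ∏ l, u l ^ e l i).factorization (p l) =
      e l i * (u l).factorization (p l) := fun l i =>
    Pool.Agent.Q41.ZP.fac_prod hu hb e h1 h2 l i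
  have hf2 : ∀ l j, (b' j * ∏ l, u l ^ a l j).factorization (p l) =
      a l j * (u l).factorization (p l) := fun l j =>
    Pool.Agent.Q41.ZP.fac_prod hu hb' a h1 h3 l j
  refine ⟨fun j => Nat.mul_ne_zero (hb' j)
    (Finset.prod_ne_zero_iff.2 fun l _ => pow_ne_zero _ (hu l)), p, hp, ?_, ?_, ?_⟩
  · intro l i
    simp only [hf1]
    exact (hea.1 l i).trans (Nat.le_mul_of_pos_right _ (hw l))
  · intro l i j hij
    simp only [hf1]
    intro h
    exact hea.2.1 l i j hij (Nat.ModEq.cancel_right_of_coprime (h0' l) h)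
  · intro I hI γ hγ
    refine hea.2.2 I hI γ fun l hl => ?_
    have h4 := hγ l hl
    simp only [hf2] at h4
    have h5 : ((u l).factorization (p l) : ℤ) * ∑ j, γ j * (a l j : ℤ) = 0 := by
      rw [← h4, mul_sum]
      refine sum_congr rfl fun j _ => ?_
      push_cast
      ring
    rcases mul_eq_zero.1 h5 with h6 | h6
    · have := hw l
      omega
    · exact h6

/-- The members at good parameters of polynomial families are spread out. -/
theorem spreadL_of_goodAt {n q D β : ℕ} (hβ : β.Prime)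
    {e : Fin ((q - 1) * 2 ^ q + 1) → Option (Fin n) → ℕ}
    {a : Fin ((q - 1) * 2 ^ q + 1) → Fin q → ℕ} (hea : GoodExpL n q β e a)
    {f : Fin ((q - 1) * 2 ^ q + 1) → ℤ[X]} {g : Option (Fin n) ⊕ Fin q → ℤ[X]} {t : ℤ}
    (h : GoodAt D β f g t) :
    SpreadL n q D β
      (fun i => ((g (Sum.inl i)).eval t).natAbs * ∏ l, ((f l).eval t).natAbs ^ e l i)
      (fun j => ((g (Sum.inr j)).eval t).natAbs * ∏ l, ((f l).eval t).natAbs ^ a l j) := by
  obtain ⟨h1, h2, p, hp⟩ := h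
  refine spreadL_of_exps hea (fun l => Int.natAbs_ne_zero.2 (h1 l))
    (fun i => Int.natAbs_ne_zero.2 (h2 _)) (fun j => Int.natAbs_ne_zero.2 (h2 _)) p
    (fun l => ⟨(hp l).1.1, (hp l).1.2.1⟩) (fun l => ?_)
    (fun l => (hβ.coprime_iff_not_dvd).2 (hp l).1.2.2) (fun l => (hp l).2.1)
    (fun l i => (hp l).2.2 _) (fun l j => (hp l).2.2 _)
  by_contra h
  exact (hp l).1.2.2 (by rw [Nat.factorization_eq_zero_of_not_dvd h]; exact dvd_zero β)

end Pool.Agent.Q116.ZE
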