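import Pool.Agent.Q57.ZP.Fam
import Pool.Agent.Q116.ZE.Fam

/-!
Large prime divisors, with exponents not divisible by `β`, of the values of coprime binary forms at
pairs of coprime integers (helper file for Zilber-Pink, families of scalings).
-/

set_option autoImplicit false

namespace Pool.Agent.Q116.ZE

open Finset Polynomial Pool.Agent.Y670.RD Pool.Agent.Q57.ZP

open Classical in
theorem near_bound {A : ℕ} (hA1 : 1 ≤ A) (k E : ℕ) : ∃ C : ℝ, 0 ≤ C ∧ ∀ β : ℕ, 1 ≤ β → ∀ H : ℕ,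
    1 ≤ H → ((((Icc 1 (A * H ^ k)).filter fun m => NearPow β E m).card : ℝ) + 1) ≤
      C * (H : ℝ) ^ ((k : ℝ) / β) * (1 + Real.log H) ^ (E + 1) := by
  set B : ℝ := 2 * (1 + Real.log A + k) with hB
  have hlA : 0 ≤ Real.log A := Real.log_nonneg (by exact_mod_cast hA1)
  refine ⟨2 * A * B ^ (E + 1), by positivity, fun β hβ H hH => ?_⟩
  set X := A * H ^ k with hX
  have hX1 : 1 ≤ X := Nat.mul_pos hA1 (Nat.pow_pos hH)
  have hXr : (1 : ℝ) ≤ X := by exact_mod_cast hX1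
  have hHr : (1 : ℝ) ≤ H := by exact_mod_cast hH
  have hAr : (1 : ℝ) ≤ A := by exact_mod_cast hA1
  have hβr : (1 : ℝ) ≤ β := by exact_mod_cast hβ
  have h2 := card_nearPow hβ E X
  have h3 : (1 : ℝ) ≤ ((Nat.log 2 X + 1 : ℕ) : ℝ) ^ (E + 1) * (X : ℝ) ^ ((1 : ℝ) / β) := by
    have h4 : (1 : ℝ) ≤ ((Nat.log 2 X + 1 : ℕ) : ℝ) ^ (E + 1) :=
      one_le_pow₀ (by push_cast; linarith [(Nat.cast_nonneg (Nat.log 2 X) : (0 : ℝ) ≤ _)])
    have h5 : (1 : ℝ) ≤ (X : ℝ) ^ ((1 : ℝ) / β) := Real.one_le_rpow hXr (by positivity)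
    nlinarith
  have hlog : ((Nat.log 2 X + 1 : ℕ) : ℝ) ≤ B * (1 + Real.log H) := by
    have h5 : (Nat.log 2 X : ℝ) ≤ Real.log X / Real.log 2 := Real.natLog_le_logb X 2
    have h6 : Real.log X = Real.log A + k * Real.log H := by
      rw [hX]
      push_cast
      rw [Real.log_mul (by positivity) (by positivity), Real.log_pow]
    have hlH : 0 ≤ Real.log H := Real.log_nonneg hHr
    have h7 : Real.log X / Real.log 2 ≤ 2 * Real.log X := by
      rw [div_le_iff₀ (Real.log_pos (by norm_num))]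
      have := Real.log_two_gt_d9
      have h8 : 0 ≤ Real.log X := Real.log_nonneg hXr
      nlinarith
    push_cast
    rw [hB]
    have hk0 : (0 : ℝ) ≤ k := Nat.cast_nonneg k
    nlinarith [mul_nonneg hlA hlH, mul_nonneg hk0 hlH]
  have hpow : (X : ℝ) ^ ((1 : ℝ) / β) ≤ A * (H : ℝ) ^ ((k : ℝ) / β) := by
    rw [hX]
    push_cast
    rw [Real.mul_rpow (by positivity) (by positivity), ← Real.rpow_natCast,
      ← Real.rpow_mul (by positivity), mul_one_div]
    gcongr
    calc (A : ℝ) ^ ((1 : ℝ) / β) ≤ (A : ℝ) ^ (1 : ℝ) := by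
          refine Real.rpow_le_rpow_of_exponent_le hAr ?_
          rw [div_le_one (by linarith)]
          exact hβr
      _ = A := Real.rpow_one _
  calc (((Icc 1 X).filter fun m => NearPow β E m).card : ℝ) + 1
      ≤ ((Nat.log 2 X + 1 : ℕ) : ℝ) ^ (E + 1) * (X : ℝ) ^ ((1 : ℝ) / β) +
          ((Nat.log 2 X + 1 : ℕ) : ℝ) ^ (E + 1) * (X : ℝ) ^ ((1 : ℝ) / β) := add_le_add h2 h3
    _ = 2 * (((Nat.log 2 X + 1 : ℕ) : ℝ) ^ (E + 1) * (X : ℝ) ^ ((1 : ℝ) / β)) := by
        ring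
    _ ≤ 2 * ((B * (1 + Real.log H)) ^ (E + 1) * (A * (H : ℝ) ^ ((k : ℝ) / β))) := by
        gcongr
    _ = _ := by
        rw [mul_pow]
        ring

/-- the size of the values of a form -/
theorem natAbs_fv_le (f : ℤ[X]) {k : ℕ} (hk : f.natDegree ≤ k) {H : ℕ} (hH : 1 ≤ H) {s t : ℤ}
    (hs : s.natAbs ≤ H) (ht : t.natAbs ≤ H) :
    (fv f.natDegree f s t).natAbs ≤ (∑ i ∈ range (f.natDegree + 1), (f.coeff i).natAbs) * H ^ k := by
  unfold fv
  refine (Int.natAbs_sum_le _ _).trans ?_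
  rw [sum_mul]
  refine sum_le_sum fun i hi => ?_
  rw [Int.natAbs_mul, Int.natAbs_mul, Int.natAbs_pow, Int.natAbs_pow, mul_assoc]
  rw [mem_range] at hi
  refine Nat.mul_le_mul_left _ ?_
  calc s.natAbs ^ i * t.natAbs ^ (f.natDegree - i) ≤ H ^ i * H ^ (f.natDegree - i) :=
        Nat.mul_le_mul (Nat.pow_le_pow_left hs _) (Nat.pow_le_pow_left ht _)
    _ = H ^ f.natDegree := by
        rw [← pow_add]
        congr 1
        omega
    _ ≤ H ^ k := Nat.pow_le_pow_right hH hk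

/-- fibres of a form for a fixed second variable, up to the sign -/
theorem fibre_card_fv (f : ℤ[X]) (hf : 1 ≤ f.natDegree) (S : Finset ℤ) (t : ℤ) (m : ℕ) :
    (S.filter fun s => (fv f.natDegree f s t).natAbs = m).card ≤ 2 * f.natDegree := by
  classical
  let P : ℤ[X] := ∑ i ∈ range (f.natDegree + 1), C (f.coeff i * t ^ (f.natDegree - i)) * X ^ i
  have hev : ∀ s, P.eval s = fv f.natDegree f s t := by
    intro s
    simp only [P, eval_finsetSum, eval_mul, eval_C, eval_pow, eval_X]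
    unfold fv
    refine sum_congr rfl fun i _ => ?_
    ring
  have hle : P.natDegree ≤ f.natDegree := by
    refine natDegree_sum_le_of_forall_le _ _ fun i hi => ?_
    rw [mem_range] at hi
    exact (natDegree_C_mul_X_pow_le _ _).trans (by omega)
  have hco : P.coeff f.natDegree = f.leadingCoeff := by
    simp only [P, finsetSum_coeff, coeff_C_mul, coeff_X_pow]
    rw [sum_eq_single f.natDegree]
    · simp
    · intro i _ hne
      rw [if_neg hne.symm, mul_zero]
    · intro h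
      exact absurd (mem_range.2 (Nat.lt_succ_self _)) h
  have hf0 : f ≠ 0 := by
    rintro rfl
    simp at hf
  have hdeg : P.natDegree = f.natDegree :=
    le_antisymm hle (le_natDegree_of_ne_zero (by rw [hco]; exact leadingCoeff_ne_zero.2 hf0))
  have h1 := fibre_card P (by rw [hdeg]; exact hf) S m
  rw [hdeg] at h1
  simpa only [hev] using h1

open Classical in
/-- few values of a form are products of powers and of numbers without large prime factors -/
theorem card_values_fv (f : ℤ[X]) (hf : 1 ≤ f.natDegree) {k : ℕ} (hk : f.natDegree ≤ k) (E : ℕ) :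
    ∃ C : ℝ, 0 ≤ C ∧ ∀ β : ℕ, 1 ≤ β → ∀ H : ℕ, 1 ≤ H →
      (((Icc (-(H : ℤ)) H ×ˢ Icc (-(H : ℤ)) H).filter fun z : ℤ × ℤ =>
        fv f.natDegree f z.1 z.2 = 0 ∨ NearPow β E (fv f.natDegree f z.1 z.2).natAbs).card : ℝ) ≤
        C * ((H : ℝ) * (H : ℝ) ^ ((k : ℝ) / β) * (1 + Real.log H) ^ (E + 1)) := by
  set A := ∑ i ∈ range (f.natDegree + 1), (f.coeff i).natAbs with hA
  have hA1 : 1 ≤ A := by
    have h1 : (f.coeff f.natDegree).natAbs ≤ A :=
      single_le_sum (f := fun i => (f.coeff i).natAbs) (fun _ _ => Nat.zero_le _)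
        (mem_range.2 (Nat.lt_succ_self _))
    have h2 : f.coeff f.natDegree ≠ 0 := by
      change f.leadingCoeff ≠ 0
      rw [leadingCoeff_ne_zero]
      rintro rfl
      simp at hf
    have h3 : 0 < (f.coeff f.natDegree).natAbs := Int.natAbs_pos.2 h2
    omega
  obtain ⟨C, hC0, hC⟩ := near_bound hA1 k E
  refine ⟨2 * f.natDegree * 3 * C, by positivity, fun β hβ H hH => ?_⟩
  set s := (Icc (-(H : ℤ)) H ×ˢ Icc (-(H : ℤ)) H).filter fun z : ℤ × ℤ =>
        fv f.natDegree f z.1 z.2 = 0 ∨ NearPow β E (fv f.natDegree f z.1 z.2).natAbs with hs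
  have him : s.image (fun z => (z.2, (fv f.natDegree f z.1 z.2).natAbs)) ⊆
      Icc (-(H : ℤ)) H ×ˢ insert 0 ((Icc 1 (A * H ^ k)).filter fun m => NearPow β E m) := by
    intro m hm
    rw [mem_image] at hm
    obtain ⟨z, hz, rfl⟩ := hm
    rw [hs, mem_filter, mem_product, mem_Icc, mem_Icc] at hz
    rw [mem_product, mem_insert]
    refine ⟨mem_Icc.2 hz.1.2, ?_⟩
    by_cases h0 : fv f.natDegree f z.1 z.2 = 0
    · left
      show (fv f.natDegree f z.1 z.2).natAbs = 0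
      rw [h0, Int.natAbs_zero]
    · right
      rw [mem_filter, mem_Icc]
      exact ⟨⟨Int.natAbs_pos.2 h0, natAbs_fv_le f hk hH (by omega) (by omega)⟩,
        hz.2.resolve_left h0⟩
  have hfib : ∀ m ∈ s.image (fun z => (z.2, (fv f.natDegree f z.1 z.2).natAbs)),
      (s.filter fun z => (z.2, (fv f.natDegree f z.1 z.2).natAbs) = m).card ≤
        2 * f.natDegree := by
    rintro ⟨t, m⟩ -
    refine le_trans ?_ (fibre_card_fv f hf (Icc (-(H : ℤ)) H) t m)
    refine card_le_card_of_injOn (fun z => z.1) ?_ ?_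
    · intro z hz
      rw [mem_coe, mem_filter, Prod.mk.injEq, hs, mem_filter, mem_product] at hz
      rw [mem_coe, mem_filter]
      obtain ⟨⟨⟨hz1, hz2⟩, hz3⟩, hz4, hz5⟩ := hz
      refine ⟨hz1, ?_⟩
      rw [← hz4]
      exact hz5
    · intro z hz w hw h
      rw [mem_coe, mem_filter, Prod.mk.injEq] at hz hw
      exact Prod.ext h (hz.2.1.trans hw.2.1.symm)
  have h1 : s.card ≤ 2 * f.natDegree * ((2 * H + 1) *
      (((Icc 1 (A * H ^ k)).filter fun m => NearPow β E m).card + 1)) := by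
    refine (card_le_mul_card_image s (2 * f.natDegree) hfib).trans ?_
    refine Nat.mul_le_mul_left _ ((card_le_card him).trans ?_)
    rw [card_product, Int.card_Icc]
    refine Nat.mul_le_mul (by omega) (card_insert_le _ _)
  have hHr : (1 : ℝ) ≤ H := by exact_mod_cast hH
  calc (s.card : ℝ) ≤ ((2 * f.natDegree * ((2 * H + 1) *
        (((Icc 1 (A * H ^ k)).filter fun m => NearPow β E m).card + 1)) : ℕ) : ℝ) := by
        exact_mod_cast h1
    _ = 2 * f.natDegree * ((2 * H + 1) *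
        ((((Icc 1 (A * H ^ k)).filter fun m => NearPow β E m).card : ℝ) + 1)) := by
        push_cast
        ring
    _ ≤ 2 * f.natDegree * ((3 * H) *
        (C * (H : ℝ) ^ ((k : ℝ) / β) * (1 + Real.log H) ^ (E + 1))) := by
        gcongr
        · linarith
        · exact hC β hβ H hH
    _ = _ := by ring

/-- The values of the forms at `(s, t)` are not zero, and every `F l` has a large prime divisor of its
own with an exponent which is not divisible by `β`. -/
def GoodPair {ι : Type} {L : ℕ} (D β : ℕ) (f : Fin L → ℤ[X]) (g : ι → ℤ[X]) (N : ι → ℕ)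
    (s t : ℤ) : Prop :=
  (∀ l, fv (f l).natDegree (f l) s t ≠ 0) ∧ (∀ i, fv (N i) (g i) s t ≠ 0) ∧ ∃ p : Fin L → ℕ, ∀ l,
    ((p l).Prime ∧ D < p l ∧ ¬ β ∣ (fv (f l).natDegree (f l) s t).natAbs.factorization (p l)) ∧
    (∀ l', l ≠ l' → ¬ p l ∣ (fv (f l').natDegree (f l') s t).natAbs) ∧
      ∀ i, ¬ p l ∣ (fv (N i) (g i) s t).natAbs

open Classical in
theorem pair_exceptions {ι : Type} [Fintype ι] {L : ℕ} (f : Fin L → ℤ[X]) (k : ℕ)
    (hf : ∀ l, 1 ≤ (f l).natDegree ∧ (f l).natDegree ≤ k)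
    (hcop : ∀ l l', l ≠ l' →
      IsCoprime ((f l).map (Int.castRingHom ℚ)) ((f l').map (Int.castRingHom ℚ)))
    (g : ι → ℤ[X]) (hg : ∀ i, g i ≠ 0) (N : ι → ℕ) (hN : ∀ i, (g i).natDegree ≤ N i)
    (hfg : ∀ l i, IsCoprime ((f l).map (Int.castRingHom ℚ)) ((g i).map (Int.castRingHom ℚ)))
    (D : ℕ) :
    ∃ (C : ℝ) (E : ℕ), ∀ β : ℕ, 1 ≤ β → ∀ H : ℕ, 1 ≤ H →
      (Set.ncard {z : ℤ × ℤ | IsCoprime z.1 z.2 ∧ |z.1| ≤ H ∧ |z.2| ≤ H ∧
        ¬ GoodPair D β f g N z.1 z.2} : ℝ) ≤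
        C * ((H : ℝ) * (H : ℝ) ^ ((k : ℝ) / β) * (1 + Real.log H) ^ E) := by
  have hf0 : ∀ l, f l ≠ 0 := by
    intro l h
    have h1 := (hf l).1
    rw [h, natDegree_zero] at h1
    omega
  choose! r hr0 hr using fun (l l' : Fin L) (h : l ≠ l') =>
    Pool.Agent.Q41.ZP.bezout (hcop l l' h)
  choose ρ hρ0 hρ using fun l i => Pool.Agent.Q41.ZP.bezout (hfg l i)
  set E : ℕ := D + (∑ l, ∑ l', (r l l').natAbs) + (∑ l, ∑ i, (ρ l i).natAbs) +
    ∑ l, ((f l).leadingCoeff).natAbs with hE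
  choose C hC0 hC using fun l => card_values_fv (f l) (hf l).1 (hf l).2 E
  have hZ : (⋃ i, {z : ℤ × ℤ | IsCoprime z.1 z.2 ∧ fv (N i) (g i) z.1 z.2 = 0}).Finite :=
    Set.finite_iUnion fun i => finite_fv_zero (g i) (hg i) (hN i)
  set Z : Finset (ℤ × ℤ) := hZ.toFinset with hZdef
  refine ⟨∑ l, C l + Z.card + 9, E + 1, fun β hβ H hH => ?_⟩
  set box : Finset (ℤ × ℤ) := Icc (-(H : ℤ)) H ×ˢ Icc (-(H : ℤ)) H with hbox
  let T : Fin L → Finset (ℤ × ℤ) := fun l => box.filter fun z =>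
    fv (f l).natDegree (f l) z.1 z.2 = 0 ∨ NearPow β E (fv (f l).natDegree (f l) z.1 z.2).natAbs
  have hsub : {z : ℤ × ℤ | IsCoprime z.1 z.2 ∧ |z.1| ≤ H ∧ |z.2| ≤ H ∧
        ¬ GoodPair D β f g N z.1 z.2} ⊆
      ((Finset.univ.biUnion T ∪ Z) ∪ (Icc (-(1 : ℤ)) 1 ×ˢ Icc (-(1 : ℤ)) 1) : Finset (ℤ × ℤ)) := by
    rintro ⟨u, v⟩ ⟨huv, huH, hvH, ht⟩
    rw [Finset.mem_coe, Finset.mem_union, Finset.mem_union]
    by_contra hcon
    rw [not_or, not_or] at hcon
    obtain ⟨⟨h1, h2⟩, h9⟩ := hcon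
    have h1' : ∀ l, fv (f l).natDegree (f l) u v ≠ 0 ∧
        ¬ NearPow β E (fv (f l).natDegree (f l) u v).natAbs := by
      intro l
      rw [← not_or]
      intro h
      exact h1 (mem_biUnion.2 ⟨l, mem_univ _, mem_filter.2 ⟨mem_product.2
        ⟨mem_Icc.2 (abs_le.1 huH), mem_Icc.2 (abs_le.1 hvH)⟩, h⟩⟩)
    have h2' : ∀ i, fv (N i) (g i) u v ≠ 0 := by
      intro i h
      apply h2
      rw [hZdef, Set.Finite.mem_toFinset, Set.mem_iUnion]
      exact ⟨i, huv, h⟩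
    have hv : v ≠ 0 := by
      rintro rfl
      apply h9
      have hs1 : |u| = 1 := Int.isUnit_iff_abs_eq.1 (isCoprime_zero_right.1 huv)
      exact mem_product.2 ⟨mem_Icc.2 (abs_le.1 hs1.le), mem_Icc.2 ⟨by norm_num, by norm_num⟩⟩
    apply ht
    have h4 : ∀ l, ∃ p : ℕ, p.Prime ∧ E < p ∧
        ¬ β ∣ (fv (f l).natDegree (f l) u v).natAbs.factorization p := by
      intro l
      have h5 := (h1' l).2
      unfold NearPow at h5
      push Not at h5
      exact h5
    choose p hp hpE hpβ using h4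
    have hpd : ∀ l, p l ∣ (fv (f l).natDegree (f l) u v).natAbs := by
      intro l
      by_contra h
      exact hpβ l (by rw [Nat.factorization_eq_zero_of_not_dvd h]; exact dvd_zero β)
    -- the primes do not divide `v`
    have hpv : ∀ l, ¬ (p l : ℤ) ∣ v := by
      intro l h
      have h4 : (p l : ℤ) ∣ (f l).coeff (f l).natDegree * u ^ (f l).natDegree := by
        have h5 := h.trans (fv_mod (f l).natDegree (f l) u v)
        have h6 := dvd_sub (Int.natCast_dvd.2 (hpd l)) h5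
        rwa [sub_sub_cancel] at h6
      rcases (Nat.prime_iff_prime_int.1 (hp l)).dvd_or_dvd h4 with h5 | h5
      · have h6 := Nat.le_of_dvd (Int.natAbs_pos.2 (leadingCoeff_ne_zero.2 (hf0 l)))
          (Int.natCast_dvd.1 h5)
        have h7 : ((f l).leadingCoeff).natAbs ≤ ∑ l, ((f l).leadingCoeff).natAbs :=
          single_le_sum (f := fun l => ((f l).leadingCoeff).natAbs) (fun _ _ => Nat.zero_le _)
            (mem_univ l)
        change p l ≤ ((f l).leadingCoeff).natAbs at h6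
        have h8 := hpE l
        omega
      · have h6 := (Nat.prime_iff_prime_int.1 (hp l)).dvd_of_dvd_pow h5
        exact (Nat.prime_iff_prime_int.1 (hp l)).not_isUnit (huv.isUnit_of_dvd' h6 h)
    have hx : ∀ l, ∃ x : ℤ, (p l : ℤ) ∣ x * v - u := by
      intro l
      have hc : IsCoprime (p l : ℤ) v :=
        (Nat.prime_iff_prime_int.1 (hp l)).irreducible.coprime_iff_not_dvd.2 (hpv l)
      obtain ⟨a, b, hab⟩ := hc
      refine ⟨u * b, -(u * a), ?_⟩
      linear_combination u * hab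
    choose x hx using hx
    refine ⟨fun l => (h1' l).1, h2', p, fun l => ⟨⟨hp l, by have := hpE l; omega, hpβ l⟩, ?_, ?_⟩⟩
    · intro l' hll h
      have e1 := dvd_eval_of_dvd_fv le_rfl (hp l) (hpv l) (hx l) (Int.natCast_dvd.2 (hpd l))
      have e2 := dvd_eval_of_dvd_fv le_rfl (hp l) (hpv l) (hx l) (Int.natCast_dvd.2 h)
      have h4 := hr l l' hll (x l) (p l) e1 e2
      have h5 := Nat.le_of_dvd (Int.natAbs_pos.2 (hr0 l l' hll)) (Int.natCast_dvd.1 h4)
      have h6 : (r l l').natAbs ≤ ∑ l, ∑ l', (r l l').natAbs :=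
        (single_le_sum (f := fun l' => (r l l').natAbs) (fun _ _ => Nat.zero_le _)
          (mem_univ l')).trans
          (single_le_sum (f := fun l => ∑ l', (r l l').natAbs) (fun _ _ => Nat.zero_le _)
            (mem_univ l))
      have h8 := hpE l
      omega
    · intro i h
      have e1 := dvd_eval_of_dvd_fv le_rfl (hp l) (hpv l) (hx l) (Int.natCast_dvd.2 (hpd l))
      have e2 := dvd_eval_of_dvd_fv (hN i) (hp l) (hpv l) (hx l) (Int.natCast_dvd.2 h)
      have h4 := hρ l i (x l) (p l) e1 e2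
      have h5 := Nat.le_of_dvd (Int.natAbs_pos.2 (hρ0 l i)) (Int.natCast_dvd.1 h4)
      have h6 : (ρ l i).natAbs ≤ ∑ l, ∑ i, (ρ l i).natAbs :=
        (single_le_sum (f := fun i => (ρ l i).natAbs) (fun _ _ => Nat.zero_le _)
          (mem_univ i)).trans
          (single_le_sum (f := fun l => ∑ i, (ρ l i).natAbs) (fun _ _ => Nat.zero_le _)
            (mem_univ l))
      have h8 := hpE l
      omega
  have hHr : (1 : ℝ) ≤ H := by exact_mod_cast hH
  set W : ℝ := (H : ℝ) * (H : ℝ) ^ ((k : ℝ) / β) * (1 + Real.log H) ^ (E + 1) with hW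
  have hW1 : 1 ≤ W := by
    have h5 : (1 : ℝ) ≤ (H : ℝ) ^ ((k : ℝ) / β) := Real.one_le_rpow hHr (by positivity)
    have h6 : (1 : ℝ) ≤ (1 + Real.log H) ^ (E + 1) :=
      one_le_pow₀ (by linarith [Real.log_nonneg hHr])
    have h7 : (1 : ℝ) ≤ (H : ℝ) * (H : ℝ) ^ ((k : ℝ) / β) := by nlinarith
    nlinarith
  have h7 : (Set.ncard {z : ℤ × ℤ | IsCoprime z.1 z.2 ∧ |z.1| ≤ H ∧ |z.2| ≤ H ∧
        ¬ GoodPair D β f g N z.1 z.2} : ℝ) ≤ (((∑ l, (T l).card + Z.card) + 9 : ℕ) : ℝ) := by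
    refine Nat.cast_le.2 ((Set.ncard_le_ncard hsub (Finset.finite_toSet _)).trans ?_)
    rw [Set.ncard_coe_finset]
    refine (Finset.card_union_le _ _).trans (Nat.add_le_add ((Finset.card_union_le _ _).trans
      (Nat.add_le_add Finset.card_biUnion_le le_rfl)) ?_)
    rw [card_product, Int.card_Icc]
    decide
  refine h7.trans ?_
  push_cast
  have h8 : ∀ l, ((T l).card : ℝ) ≤ C l * W := fun l => hC l β hβ H hH
  have h9 : ∑ l, ((T l).card : ℝ) ≤ (∑ l, C l) * W := by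
    rw [Finset.sum_mul]
    exact Finset.sum_le_sum fun l _ => h8 l
  have h10 : (0 : ℝ) ≤ Z.card := Nat.cast_nonneg _
  nlinarith

end Pool.Agent.Q116.ZE
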