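import Pool.Agent.Q116.ZE.Fam

/-!
Almost all matrices of exponents are good for the Legendre family (helper file).
-/

set_option autoImplicit false

namespace Pool.Agent.Q116.ZE

open Finset Pool.Agent.W466.EP Pool.Agent.W282.LF Pool.Agent.Q41.ZP

open Classical in
/-- Almost all matrices of exponents are good. -/
theorem count_goodL {K : Type} [Fintype K] [DecidableEq K] (n q : ℕ)
    (b : ℕ) (ro : Fin ((q - 1) * 2 ^ q + 1) → K) (hro : Function.Injective ro)
    (H : ℕ) :
    ((Fintype.piFinset fun _ : K × (Option (Fin n) ⊕ Fin q) => Icc 1 H).filter fun e =>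
      ¬ GoodExpL n q b (fun l i => e (ro l, Sum.inl i)) (fun l j => e (ro l, Sum.inr j))).card ≤
      (((q - 1) * 2 ^ q + 1) * (n + 1) * b +
        ((q - 1) * 2 ^ q + 1) * (n + 1) ^ 2 * (H / b + 1) +
        q * ((q - 1) * 2 ^ q + 1) ^ q) *
      H ^ (Fintype.card K * (n + 1 + q) - 1) := by
  have hcard : Fintype.card (K × (Option (Fin n) ⊕ Fin q)) = Fintype.card K * (n + 1 + q) := by
    simp
  set box : Finset (K × (Option (Fin n) ⊕ Fin q) → ℕ) :=
    Fintype.piFinset fun _ : K × (Option (Fin n) ⊕ Fin q) => Icc 1 H with hbox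
  let S0 : Fin ((q - 1) * 2 ^ q + 1) × Option (Fin n) →
      Finset (K × (Option (Fin n) ⊕ Fin q) → ℕ) := fun z =>
    box.filter fun e => e (ro z.1, Sum.inl z.2) < b
  let S1 : Fin ((q - 1) * 2 ^ q + 1) × (Option (Fin n) × Option (Fin n)) →
      Finset (K × (Option (Fin n) ⊕ Fin q) → ℕ) := fun z =>
    box.filter fun e => z.2.1 ≠ z.2.2 ∧
      e (ro z.1, Sum.inl z.2.1) ≡ e (ro z.1, Sum.inl z.2.2) [MOD b]
  let S2 : (Fin q → Fin ((q - 1) * 2 ^ q + 1)) →
      Finset (K × (Option (Fin n) ⊕ Fin q) → ℕ) := fun r =>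
    box.filter fun e => Function.Injective r ∧
      (Matrix.of fun i j : Fin q => (e (ro (r i), Sum.inr j) : ℤ)).det = 0
  have hsub : (box.filter fun e =>
      ¬ GoodExpL n q b (fun l i => e (ro l, Sum.inl i)) (fun l j => e (ro l, Sum.inr j))) ⊆
      univ.biUnion S0 ∪ univ.biUnion S1 ∪ univ.biUnion S2 := by
    intro e he
    rw [mem_filter] at he
    obtain ⟨he1, he2⟩ := he
    rw [mem_union, mem_union]
    by_contra hcon
    rw [not_or, not_or] at hcon
    apply he2
    refine ⟨fun l i => ?_, fun l i j hij h => ?_, fun I hI β hβ => ?_⟩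
    · by_contra h
      apply hcon.1.1
      rw [mem_biUnion]
      exact ⟨(l, i), mem_univ _, mem_filter.2 ⟨he1, not_le.1 h⟩⟩
    · apply hcon.1.2
      rw [mem_biUnion]
      exact ⟨(l, (i, j)), mem_univ _, mem_filter.2 ⟨he1, hij, h⟩⟩
    · by_contra hβ0
      apply hcon.2
      rw [mem_biUnion]
      let r := I.orderEmbOfFin hI
      refine ⟨r, mem_univ _, mem_filter.2 ⟨he1, r.injective, ?_⟩⟩
      rw [← Matrix.exists_mulVec_eq_zero_iff]
      refine ⟨β, hβ0, ?_⟩
      funext i
      have h1 := hβ (r i) (Finset.orderEmbOfFin_mem I hI i)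
      simp only [Matrix.mulVec, dotProduct, Matrix.of_apply, Pi.zero_apply]
      rw [← h1]
      exact sum_congr rfl fun j _ => mul_comm _ _
  have hS0 : ∀ z, (S0 z).card ≤ b * H ^ (Fintype.card K * (n + 1 + q) - 1) := by
    rintro ⟨l, i⟩
    rw [← hcard]
    refine card_fiber H b (ro l, Sum.inl i)
      (fun e => e (ro l, Sum.inl i) < b) fun e he => ?_
    refine (card_le_card fun v hv => ?_).trans (card_lt H b)
    rw [mem_filter, Function.update_self] at hv
    exact mem_filter.2 hv
  have hS1 : ∀ z, (S1 z).card ≤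
      (H / b + 1) * H ^ (Fintype.card K * (n + 1 + q) - 1) := by
    rintro ⟨l, ⟨i, j⟩⟩
    by_cases hij : i = j
    · have h0 : S1 (l, (i, j)) = ∅ := by
        rw [filter_eq_empty_iff]
        rintro e - ⟨h1, -⟩
        exact h1 hij
      rw [h0]
      exact Nat.zero_le _
    · rw [← hcard]
      refine (card_le_card fun e he => ?_).trans (card_fiber H (H / b + 1) (ro l, Sum.inl i)
        (fun e => e (ro l, Sum.inl i) ≡ e (ro l, Sum.inl j) [MOD b]) fun e he => ?_)
      · rw [mem_filter] at he ⊢
        exact ⟨he.1, he.2.2⟩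
      · refine (card_le_card fun v hv => ?_).trans (card_modEq H b (e (ro l, Sum.inl j)))
        rw [mem_filter, Function.update_self, Function.update_of_ne] at hv
        · exact mem_filter.2 hv
        · intro h
          exact hij (Sum.inl_injective (Prod.mk.inj h).2).symm
  have hS2 : ∀ r, (S2 r).card ≤ q * H ^ (Fintype.card K * (n + 1 + q) - 1) := by
    intro r
    by_cases hr : Function.Injective r
    · rw [← hcard]
      refine le_trans (card_le_card (fun e he => ?_)) (card_det (K := K)
        (I := Option (Fin n) ⊕ Fin q) H q (fun i => ro (r i)) Sum.inr (hro.comp hr)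
        Sum.inr_injective)
      rw [mem_filter] at he ⊢
      exact ⟨Fintype.mem_piFinset.2 (Fintype.mem_piFinset.1 he.1), he.2.2⟩
    · have h0 : S2 r = ∅ := by
        rw [filter_eq_empty_iff]
        rintro e - ⟨h1, -⟩
        exact hr h1
      rw [h0]
      exact Nat.zero_le _
  refine (card_le_card hsub).trans ((card_union_le _ _).trans ?_)
  rw [add_mul, add_mul]
  refine Nat.add_le_add ((card_union_le _ _).trans (Nat.add_le_add ?_ ?_)) ?_
  · refine (card_biUnion_le.trans (sum_le_sum fun z _ => hS0 z)).trans (le_of_eq ?_)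
    rw [sum_const, card_univ, Fintype.card_prod, Fintype.card_fin, Fintype.card_option,
      Fintype.card_fin, smul_eq_mul]
    ring
  · refine (card_biUnion_le.trans (sum_le_sum fun z _ => hS1 z)).trans (le_of_eq ?_)
    rw [sum_const, card_univ, Fintype.card_prod, Fintype.card_prod, Fintype.card_fin,
      Fintype.card_option, Fintype.card_fin, smul_eq_mul]
    ring
  · refine (card_biUnion_le.trans (sum_le_sum fun r _ => hS2 r)).trans (le_of_eq ?_)
    rw [sum_const, card_univ, Fintype.card_fun, Fintype.card_fin, Fintype.card_fin, smul_eq_mul]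
    ring

end Pool.Agent.Q116.ZE
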