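import Pool.Agent.Q41.ZP.PolyFam
import Pool.Agent.W466.EK

/-!
Values of polynomials which are products of powers with a fixed exponent and of numbers without large
prime factors are rare (helper file for Zilber-Pink for semiabelian varieties, polynomial families of
scalings).
-/

set_option autoImplicit false

namespace Pool.Agent.Q116.ZE

open Finset Polynomial Pool.Agent.W466.EP

/-- all exponents of `m` at the primes larger than `E` are divisible by `β` -/
def NearPow (β E m : ℕ) : Prop := ∀ p, p.Prime → E < p → β ∣ m.factorization p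

theorem nearPow_decomp {β E m : ℕ} (hm : m ≠ 0) (h : NearPow β E m) :
    ∃ s z : ℕ, m = s * z ^ β ∧ ∀ p, p.Prime → p ∣ s → p ≤ E := by
  classical
  refine ⟨∏ p ∈ m.primeFactors.filter (fun p => ¬ E < p), p ^ m.factorization p,
    ∏ p ∈ m.primeFactors.filter (fun p => E < p), p ^ (m.factorization p / β), ?_, ?_⟩
  · rw [← Finset.prod_pow]
    have h1 : ∏ p ∈ m.primeFactors.filter (fun p => E < p), (p ^ (m.factorization p / β)) ^ β =
        ∏ p ∈ m.primeFactors.filter (fun p => E < p), p ^ m.factorization p := by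
      refine prod_congr rfl fun p hp => ?_
      rw [mem_filter] at hp
      rw [← pow_mul, Nat.div_mul_cancel (h p (Nat.prime_of_mem_primeFactors hp.1) hp.2)]
    rw [h1, mul_comm, prod_filter_mul_prod_filter_not]
    exact (Nat.prod_factorization_pow_eq_self hm).symm
  · intro p hp hd
    rw [hp.prime.dvd_finsetProd_iff] at hd
    obtain ⟨r, hr, hd⟩ := hd
    rw [mem_filter] at hr
    have h1 := (Nat.prime_dvd_prime_iff_eq hp (Nat.prime_of_mem_primeFactors hr.1)).1
      (hp.dvd_of_dvd_pow hd)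
    rw [h1]
    exact not_lt.1 hr.2

open Classical in
theorem card_nearPow {β : ℕ} (hβ : 1 ≤ β) (E X : ℕ) :
    (((Icc 1 X).filter fun m => NearPow β E m).card : ℝ) ≤
      ((Nat.log 2 X + 1 : ℕ) : ℝ) ^ (E + 1) * (X : ℝ) ^ ((1 : ℝ) / β) := by
  set Y := ⌊(X : ℝ) ^ ((1 : ℝ) / β)⌋₊ with hY
  have hβ0 : (β : ℝ) ≠ 0 := by
    have : (1 : ℝ) ≤ β := by exact_mod_cast hβ
    linarith
  have h1 : ((Icc 1 X).filter fun m => NearPow β E m) ⊆
      (((Icc 1 X).filter fun m => ∀ p, p.Prime → p ∣ m → p ≤ E) ×ˢ Icc 1 Y).image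
        fun z => z.1 * z.2 ^ β := by
    intro m hm
    rw [mem_filter, mem_Icc] at hm
    obtain ⟨⟨hm1, hm2⟩, hm3⟩ := hm
    obtain ⟨s, z, hsz, hs⟩ := nearPow_decomp (by omega) hm3
    have hs0 : 1 ≤ s := by
      rcases Nat.eq_zero_or_pos s with h | h
      · rw [h, zero_mul] at hsz
        omega
      · exact h
    have hz0 : 1 ≤ z := by
      rcases Nat.eq_zero_or_pos z with h | h
      · rw [h, zero_pow (by omega), mul_zero] at hsz
        omega
      · exact h
    have hzβ : 1 ≤ z ^ β := Nat.one_le_pow _ _ hz0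
    rw [mem_image]
    refine ⟨(s, z), ?_, hsz.symm⟩
    rw [mem_product, mem_filter, mem_Icc, mem_Icc]
    refine ⟨⟨⟨hs0, ?_⟩, hs⟩, hz0, ?_⟩
    · calc s ≤ s * z ^ β := Nat.le_mul_of_pos_right _ hzβ
        _ = m := hsz.symm
        _ ≤ X := hm2
    · rw [hY, Nat.le_floor_iff (by positivity)]
      have h3 : z ^ β ≤ X := by
        calc z ^ β ≤ s * z ^ β := Nat.le_mul_of_pos_left _ hs0
          _ = m := hsz.symm
          _ ≤ X := hm2
      have h4 : ((z : ℝ) ^ β) ≤ X := by exact_mod_cast h3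
      calc (z : ℝ) = ((z : ℝ) ^ β) ^ ((1 : ℝ) / β) := by
            rw [← Real.rpow_natCast, ← Real.rpow_mul (by positivity), mul_one_div_cancel hβ0,
              Real.rpow_one]
        _ ≤ (X : ℝ) ^ ((1 : ℝ) / β) := by
            refine Real.rpow_le_rpow (by positivity) h4 (by positivity)
  have h2 : ((Icc 1 X).filter fun m => NearPow β E m).card ≤
      (Nat.log 2 X + 1) ^ (E + 1) * Y := by
    refine (card_le_card h1).trans (card_image_le.trans ?_)
    rw [card_product, Nat.card_Icc, Nat.add_sub_cancel]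
    exact Nat.mul_le_mul_right _ (Pool.Agent.W466.ZC.smooth_card E X)
  calc (((Icc 1 X).filter fun m => NearPow β E m).card : ℝ) ≤
        (((Nat.log 2 X + 1) ^ (E + 1) * Y : ℕ) : ℝ) := by exact_mod_cast h2
    _ = ((Nat.log 2 X + 1 : ℕ) : ℝ) ^ (E + 1) * Y := by push_cast; ring
    _ ≤ _ := by
        gcongr
        exact Nat.floor_le (by positivity)

/-- the size of the values of a polynomial -/
theorem natAbs_eval_le (f : ℤ[X]) {k : ℕ} (hk : f.natDegree ≤ k) {H : ℕ} (hH : 1 ≤ H) {t : ℤ}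
    (ht : t.natAbs ≤ H) :
    (f.eval t).natAbs ≤ (∑ i ∈ range (f.natDegree + 1), (f.coeff i).natAbs) * H ^ k := by
  rw [eval_eq_sum_range]
  refine (Int.natAbs_sum_le _ _).trans ?_
  rw [sum_mul]
  refine sum_le_sum fun i hi => ?_
  rw [Int.natAbs_mul, Int.natAbs_pow]
  rw [mem_range] at hi
  exact Nat.mul_le_mul_left _ ((Nat.pow_le_pow_left ht _).trans
    (Nat.pow_le_pow_right hH (by omega)))

/-- fibres of a polynomial, up to the sign -/
theorem fibre_card (f : ℤ[X]) (hf : 1 ≤ f.natDegree) (s : Finset ℤ) (m : ℕ) :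
    (s.filter fun t => (f.eval t).natAbs = m).card ≤ 2 * f.natDegree := by
  classical
  have h1 : (f - C (m : ℤ)).natDegree = f.natDegree := natDegree_sub_C
  have h2 : (f + C (m : ℤ)).natDegree = f.natDegree := natDegree_add_C
  have h3 : f - C (m : ℤ) ≠ 0 := fun h => by
    rw [h, natDegree_zero] at h1
    omega
  have h4 : f + C (m : ℤ) ≠ 0 := fun h => by
    rw [h, natDegree_zero] at h2
    omega
  have hsub : (s.filter fun t => (f.eval t).natAbs = m) ⊆
      (f - C (m : ℤ)).roots.toFinset ∪ (f + C (m : ℤ)).roots.toFinset := by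
    intro t ht
    rw [mem_filter] at ht
    rw [mem_union, Multiset.mem_toFinset, Multiset.mem_toFinset, mem_roots h3, mem_roots h4]
    rcases Int.natAbs_eq (f.eval t) with h | h
    · left
      rw [IsRoot, eval_sub, eval_C, h, ht.2, sub_self]
    · right
      rw [IsRoot, eval_add, eval_C, h, ht.2, neg_add_cancel]
  refine (card_le_card hsub).trans ((card_union_le _ _).trans ?_)
  have h5 := (Multiset.toFinset_card_le (f - C (m : ℤ)).roots).trans (card_roots' _)
  have h6 := (Multiset.toFinset_card_le (f + C (m : ℤ)).roots).trans (card_roots' _)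
  rw [h1] at h5
  rw [h2] at h6
  omega

open Classical in
/-- few values of a polynomial are products of powers and of numbers without large prime factors -/
theorem card_values (f : ℤ[X]) (hf : 1 ≤ f.natDegree) {k : ℕ} (hk : f.natDegree ≤ k) (E : ℕ) :
    ∃ C : ℝ, 0 ≤ C ∧ ∀ β : ℕ, 1 ≤ β → ∀ H : ℕ, 1 ≤ H →
      (((Icc (-(H : ℤ)) H).filter fun t => f.eval t = 0 ∨ NearPow β E (f.eval t).natAbs).card : ℝ) ≤
        C * (H : ℝ) ^ ((k : ℝ) / β) * (1 + Real.log H) ^ (E + 1) := by
  set A := ∑ i ∈ range (f.natDegree + 1), (f.coeff i).natAbs with hA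
  have hA1 : 1 ≤ A := by
    have h1 : (f.coeff f.natDegree).natAbs ≤ A :=
      single_le_sum (f := fun i => (f.coeff i).natAbs) (fun _ _ => Nat.zero_le _)
        (mem_range.2 (Nat.lt_succ_self _))
    have h2 : f.coeff f.natDegree ≠ 0 := by
      change f.leadingCoeff ≠ 0
      rw [leadingCoeff_ne_zero]
      rintro rfl
      simp at hf
    have h3 : 0 < (f.coeff f.natDegree).natAbs := Int.natAbs_pos.2 h2
    omega
  set B : ℝ := 2 * (1 + Real.log A + k) with hB
  have hlA : 0 ≤ Real.log A := Real.log_nonneg (by exact_mod_cast hA1)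
  refine ⟨4 * f.natDegree * A * B ^ (E + 1), by positivity, fun β hβ H hH => ?_⟩
  set X := A * H ^ k with hX
  have hX1 : 1 ≤ X := Nat.mul_pos hA1 (Nat.pow_pos hH)
  set s := (Icc (-(H : ℤ)) H).filter fun t => f.eval t = 0 ∨ NearPow β E (f.eval t).natAbs with hs
  have him : s.image (fun t => (f.eval t).natAbs) ⊆
      insert 0 ((Icc 1 X).filter fun m => NearPow β E m) := by
    intro m hm
    rw [mem_image] at hm
    obtain ⟨t, ht, rfl⟩ := hm
    rw [hs, mem_filter, mem_Icc] at ht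
    rw [mem_insert]
    by_cases h0 : f.eval t = 0
    · left
      rw [h0, Int.natAbs_zero]
    · right
      rw [mem_filter, mem_Icc]
      refine ⟨⟨Int.natAbs_pos.2 h0, natAbs_eval_le f hk hH (by omega)⟩, ht.2.resolve_left h0⟩
  have h1 : s.card ≤ 2 * f.natDegree * (((Icc 1 X).filter fun m => NearPow β E m).card + 1) := by
    refine (card_le_mul_card_image (f := fun t => (f.eval t).natAbs) s (2 * f.natDegree)
      fun m _ => fibre_card f hf s m).trans ?_
    exact Nat.mul_le_mul_left _ ((card_le_card him).trans (card_insert_le _ _))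
  have hXr : (1 : ℝ) ≤ X := by exact_mod_cast hX1
  have hHr : (1 : ℝ) ≤ H := by exact_mod_cast hH
  have hAr : (1 : ℝ) ≤ A := by exact_mod_cast hA1
  have hβr : (1 : ℝ) ≤ β := by exact_mod_cast hβ
  have h2 := card_nearPow hβ E X
  have h3 : (1 : ℝ) ≤ ((Nat.log 2 X + 1 : ℕ) : ℝ) ^ (E + 1) * (X : ℝ) ^ ((1 : ℝ) / β) := by
    have h4 : (1 : ℝ) ≤ ((Nat.log 2 X + 1 : ℕ) : ℝ) ^ (E + 1) :=
      one_le_pow₀ (by push_cast; linarith [(Nat.cast_nonneg (Nat.log 2 X) : (0 : ℝ) ≤ _)])
    have h5 : (1 : ℝ) ≤ (X : ℝ) ^ ((1 : ℝ) / β) := Real.one_le_rpow hXr (by positivity)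
    nlinarith
  have hlog : ((Nat.log 2 X + 1 : ℕ) : ℝ) ≤ B * (1 + Real.log H) := by
    have h5 : (Nat.log 2 X : ℝ) ≤ Real.log X / Real.log 2 := Real.natLog_le_logb X 2
    have h6 : Real.log X = Real.log A + k * Real.log H := by
      rw [hX]
      push_cast
      rw [Real.log_mul (by positivity) (by positivity), Real.log_pow]
    have hlH : 0 ≤ Real.log H := Real.log_nonneg hHr
    have h7 : Real.log X / Real.log 2 ≤ 2 * Real.log X := by
      rw [div_le_iff₀ (Real.log_pos (by norm_num))]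
      have := Real.log_two_gt_d9
      have h8 : 0 ≤ Real.log X := Real.log_nonneg hXr
      nlinarith
    push_cast
    rw [hB]
    have hk0 : (0 : ℝ) ≤ k := Nat.cast_nonneg k
    nlinarith [mul_nonneg hlA hlH, mul_nonneg hk0 hlH]
  have hpow : (X : ℝ) ^ ((1 : ℝ) / β) ≤ A * (H : ℝ) ^ ((k : ℝ) / β) := by
    rw [hX]
    push_cast
    rw [Real.mul_rpow (by positivity) (by positivity), ← Real.rpow_natCast,
      ← Real.rpow_mul (by positivity), mul_one_div]
    gcongr
    calc (A : ℝ) ^ ((1 : ℝ) / β) ≤ (A : ℝ) ^ (1 : ℝ) := by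
          refine Real.rpow_le_rpow_of_exponent_le hAr ?_
          rw [div_le_one (by linarith)]
          exact hβr
      _ = A := Real.rpow_one _
  calc (s.card : ℝ) ≤
        ((2 * f.natDegree * (((Icc 1 X).filter fun m => NearPow β E m).card + 1) : ℕ) : ℝ) := by
        exact_mod_cast h1
    _ = 2 * f.natDegree * ((((Icc 1 X).filter fun m => NearPow β E m).card : ℝ) + 1) := by
        push_cast
        ring
    _ ≤ 2 * f.natDegree * (((Nat.log 2 X + 1 : ℕ) : ℝ) ^ (E + 1) * (X : ℝ) ^ ((1 : ℝ) / β) +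
          ((Nat.log 2 X + 1 : ℕ) : ℝ) ^ (E + 1) * (X : ℝ) ^ ((1 : ℝ) / β)) := by gcongr
    _ = 4 * f.natDegree * (((Nat.log 2 X + 1 : ℕ) : ℝ) ^ (E + 1) * (X : ℝ) ^ ((1 : ℝ) / β)) := by
        ring
    _ ≤ 4 * f.natDegree * ((B * (1 + Real.log H)) ^ (E + 1) * (A * (H : ℝ) ^ ((k : ℝ) / β))) := by
        gcongr
    _ = _ := by
        rw [mul_pow]
        ring

/-- scalings are spread out, if the factors have large primes of their own with exponents which are
not divisible by `β` -/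
theorem spreadE_of_exps {α : Type} {q D β : ℕ} (hβ : β.Prime)
    {e : Fin ((q - 1) * 2 ^ q + 1) → α → ℕ} {a : Fin ((q - 1) * 2 ^ q + 1) → Fin q → ℕ}
    (he1 : ∀ l i, β ≤ e l i ∧ ¬ β ∣ e l i) (he2 : ∀ l i j, i ≠ j → ¬ e l i ≡ e l j [MOD β])
    (ha : ∀ I : Finset (Fin ((q - 1) * 2 ^ q + 1)), I.card = q → ∀ γ : Fin q → ℤ,
      (∀ l ∈ I, ∑ j, γ j * (a l j : ℤ) = 0) → γ = 0)
    {u : Fin ((q - 1) * 2 ^ q + 1) → ℕ} (hu : ∀ l, u l ≠ 0)
    {b : α → ℕ} (hb : ∀ i, b i ≠ 0) {b' : Fin q → ℕ} (hb' : ∀ j, b' j ≠ 0)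
    (p : Fin ((q - 1) * 2 ^ q + 1) → ℕ) (hp : ∀ l, (p l).Prime ∧ D < p l)
    (h0 : ∀ l, ¬ β ∣ (u l).factorization (p l))
    (h1 : ∀ l l', l ≠ l' → ¬ p l ∣ u l') (h2 : ∀ l i, ¬ p l ∣ b i)
    (h3 : ∀ l j, ¬ p l ∣ b' j) :
    SpreadE q D β (fun i => b i * ∏ l, u l ^ e l i) (fun j => b' j * ∏ l, u l ^ a l j) := by
  have hw : ∀ l, 1 ≤ (u l).factorization (p l) := fun l => by
    rcases Nat.eq_zero_or_pos ((u l).factorization (p l)) with h | h
    · exact absurd (h ▸ dvd_zero β) (h0 l)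
    · exact h
  have hcop : ∀ l, Nat.gcd β ((u l).factorization (p l)) = 1 := fun l =>
    (hβ.coprime_iff_not_dvd).2 (h0 l)
  have hf1 : ∀ l i, (b i * ∏ l, u l ^ e l i).factorization (p l) =
      e l i * (u l).factorization (p l) := fun l i =>
    Pool.Agent.Q41.ZP.fac_prod hu hb e h1 h2 l i
  have hf2 : ∀ l j, (b' j * ∏ l, u l ^ a l j).factorization (p l) =
      a l j * (u l).factorization (p l) := fun l j =>
    Pool.Agent.Q41.ZP.fac_prod hu hb' a h1 h3 l j
  refine ⟨fun j => Nat.mul_ne_zero (hb' j)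
    (Finset.prod_ne_zero_iff.2 fun l _ => pow_ne_zero _ (hu l)), p, hp, ?_, ?_, ?_⟩
  · intro l i
    simp only [hf1]
    refine ⟨(he1 l i).1.trans (Nat.le_mul_of_pos_right _ (hw l)), fun h => ?_⟩
    rcases hβ.dvd_mul.1 h with h4 | h4
    · exact (he1 l i).2 h4
    · exact h0 l h4
  · intro l i j hij
    simp only [hf1]
    intro h
    have h4 : e l i * (u l).factorization (p l) ≡ e l j * (u l).factorization (p l) [MOD β] :=
      h.of_dvd (Dvd.intro_left 2 rfl)
    exact he2 l i j hij (Nat.ModEq.cancel_right_of_coprime (hcop l) h4)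
  · intro I hI γ hγ
    refine ha I hI γ fun l hl => ?_
    have h4 := hγ l hl
    simp only [hf2] at h4
    have h5 : ((u l).factorization (p l) : ℤ) * ∑ j, γ j * (a l j : ℤ) = 0 := by
      rw [← h4, mul_sum]
      refine sum_congr rfl fun j _ => ?_
      push_cast
      ring
    rcases mul_eq_zero.1 h5 with h6 | h6
    · have := hw l
      omega
    · exact h6

end Pool.Agent.Q116.ZE
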